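import Pool.Agent.Helper34.EC.Defs

/-!
# Project EC, module E1: a field `k` with an algebraic extension `ℂ / k⸨t⸩`
-/

set_option autoImplicit false
set_option synthInstance.maxHeartbeats 400000

namespace Pool.Agent.Helper62.EC

open Cardinal Pool.Agent.Helper34.EC

/-- A countable field has a Laurent series field of cardinality `𝔠`. -/
theorem mk_laurentSeries (k : Type) [Field k] [Countable k] : #(LaurentSeries k) = 𝔠 := by
  apply le_antisymm
  · have h1 : #(LaurentSeries k) ≤ #(ℤ → k) :=
      Cardinal.mk_le_of_injective (f := fun f : HahnSeries ℤ k => f.coeff)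
        HahnSeries.coeff_injective
    refine h1.trans ?_
    rw [← Cardinal.power_def]
    have h2 : #k ≤ ℵ₀ := Cardinal.mk_le_aleph0
    calc #k ^ #ℤ ≤ ℵ₀ ^ ℵ₀ := by
          rw [Cardinal.mk_int]
          exact Cardinal.power_le_power_right h2
      _ = 𝔠 := Cardinal.aleph0_power_aleph0
  · have h1 : #(ℕ → Bool) = 𝔠 := by
      rw [← Cardinal.power_def, Cardinal.mk_nat, Cardinal.mk_bool]
      exact Cardinal.two_power_aleph0
    rw [← h1]
    refine Cardinal.mk_le_of_injective
      (f := fun s : ℕ → Bool => ((PowerSeries.mk fun n => if s n then (1 : k) else 0 :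
        PowerSeries k) : LaurentSeries k)) ?_
    intro s s' h
    have h2 := HahnSeries.ofPowerSeries_injective h
    funext n
    have h3 := congrArg (PowerSeries.coeff n) h2
    simp only [PowerSeries.coeff_mk] at h3
    cases h4 : s n <;> cases h5 : s' n <;> simp [h4, h5] at h3 ⊢

/-- A field of characteristic zero and of cardinality `𝔠` embeds in `ℂ` in such a way that `ℂ` is
algebraic over it. -/
theorem exists_algebra (F : Type) [Field F] [CharZero F] (hF : #F = 𝔠) :
    ∃ (_ : Algebra F ℂ), Algebra.IsAlgebraic F ℂ := by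
  have hC : #(AlgebraicClosure F) = 𝔠 := by
    apply le_antisymm
    · have := Algebra.IsAlgebraic.cardinalMk_le_max F (AlgebraicClosure F)
      rw [hF] at this
      refine this.trans ?_
      simp [Cardinal.aleph0_le_continuum]
    · rw [← hF]
      exact Cardinal.mk_le_of_injective (algebraMap F (AlgebraicClosure F)).injective
  have : CharZero (AlgebraicClosure F) :=
    charZero_of_injective_algebraMap (algebraMap F (AlgebraicClosure F)).injective
  obtain ⟨e⟩ := IsAlgClosed.ringEquiv_of_equiv_of_charZero
    (K := AlgebraicClosure F) (L := ℂ)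
    (by rw [hC]; exact Cardinal.aleph0_lt_continuum)
    (Cardinal.eq.mp (by rw [hC, Cardinal.mk_complex]))
  let _ : Algebra F ℂ := (e.toRingHom.comp (algebraMap F (AlgebraicClosure F))).toAlgebra
  refine ⟨inferInstance, ?_⟩
  let e' : AlgebraicClosure F ≃ₐ[F] ℂ := { e with commutes' := fun r => rfl }
  exact e'.isAlgebraic

/-- EC-E1 -/
theorem exists_field (g : ℕ) : ∃ (k : Type) (_ : Field k) (_ : CharZero k)
    (c : Fin g × Bool → k) (_ : Algebra (LaurentSeries k) ℂ),
    AlgebraicIndependent ℚ c ∧ Algebra.IsAlgebraic (LaurentSeries k) ℂ := by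
  have h0 : CharZero (MvPolynomial (Fin g × Bool) ℚ) := inferInstance
  have hk : CharZero (FractionRing (MvPolynomial (Fin g × Bool) ℚ)) :=
    charZero_of_injective_algebraMap (IsFractionRing.injective (MvPolynomial (Fin g × Bool) ℚ) _)
  have h1 : #(MvPolynomial (Fin g × Bool) ℚ) ≤ ℵ₀ := by
    refine MvPolynomial.cardinalMk_le_max.trans ?_
    simp only [Cardinal.mkRat, max_le_iff, le_refl, true_and, and_true]
    exact Cardinal.mk_le_aleph0
  have h2 : #(FractionRing (MvPolynomial (Fin g × Bool) ℚ)) ≤ ℵ₀ := by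
    rw [Cardinal.mk_fractionRing]
    exact h1
  have h3 : Countable (FractionRing (MvPolynomial (Fin g × Bool) ℚ)) :=
    Cardinal.mk_le_aleph0_iff.mp h2
  have hL := mk_laurentSeries (FractionRing (MvPolynomial (Fin g × Bool) ℚ))
  have h4 : CharZero (LaurentSeries (FractionRing (MvPolynomial (Fin g × Bool) ℚ))) := by
    refine charZero_of_injective_ringHom (f := (HahnSeries.C :
      (FractionRing (MvPolynomial (Fin g × Bool) ℚ)) →+* HahnSeries ℤ _)) ?_
    exact HahnSeries.C_injective
  obtain ⟨inst, h5⟩ := exists_algebra (LaurentSeries (FractionRing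
    (MvPolynomial (Fin g × Bool) ℚ))) hL
  refine ⟨FractionRing (MvPolynomial (Fin g × Bool) ℚ), inferInstance, hk,
    fun i => algebraMap (MvPolynomial (Fin g × Bool) ℚ) _ (MvPolynomial.X i), inst, ?_, h5⟩
  exact (MvPolynomial.algebraicIndependent_X (Fin g × Bool) ℚ).ringHom_of_comp_eq
    (S := ℚ) (RingHom.id ℚ) (algebraMap (MvPolynomial (Fin g × Bool) ℚ) _)
    Function.surjective_id (IsFractionRing.injective (MvPolynomial (Fin g × Bool) ℚ) _)
    (Subsingleton.elim _ _)

end Pool.Agent.Helper62.EC
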