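import Pool.Agent.Helper34.EC.Defs
import Pool.Agent.Helper7.ShellB

/-!
# Project EC, module D4: transfer of the emptiness of linear systems to generic points
-/

set_option autoImplicit false

namespace Pool.Agent.Helper62.EC

open Polynomial Module Pool.Agent.Helper34.EC Pool.Agent.Helper41.Fat

/-- The exponents of total degree at most `d`. -/
abbrev Jd (d : ℕ) : Type := {p : Fin (d + 1) × Fin (d + 1) // (p.1 : ℕ) + p.2 ≤ d}

/-- The matrix of the linear conditions: multiplicity at least `m` at `(x l, y l)`. -/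
def condMat {R : Type} [CommRing R] (r d m : ℕ) (x y : Fin r → R) :
    Matrix (Fin r × Fin m × Fin m) (Jd d) R := fun q p =>
  if (q.2.1 : ℕ) + q.2.2 < m then
    (x q.1 ^ ((p.1.1 : ℕ) - q.2.1) * ((p.1.1 : ℕ).choose q.2.1 : R)) *
      (y q.1 ^ ((p.1.2 : ℕ) - q.2.2) * ((p.1.2 : ℕ).choose q.2.2 : R))
  else 0

theorem condMat_map {R S : Type} [CommRing R] [CommRing S] (φ : R →+* S) (r d m : ℕ)
    (x y : Fin r → R) :
    (condMat r d m x y).map φ = condMat r d m (fun i => φ (x i)) (fun i => φ (y i)) := by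
  ext q p
  simp only [Matrix.map_apply, condMat]
  split_ifs <;> simp

/-- The polynomial with given coefficients. -/
noncomputable def polyOf {K : Type} [Field K] (d : ℕ) (v : Jd d → K) : K[X][X] :=
  ∑ p : Jd d, monomial (p.1.2 : ℕ) (monomial (p.1.1 : ℕ) (v p))

section

variable {K : Type} [Field K] {r d m : ℕ}

theorem coeff_polyOf (v : Jd d → K) (i j : ℕ) :
    ((polyOf d v).coeff j).coeff i = if h : i + j ≤ d then
      v ⟨(⟨i, by omega⟩, ⟨j, by omega⟩), h⟩ else 0 := by
  rw [polyOf, finsetSum_coeff, finsetSum_coeff]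
  split_ifs with h
  · rw [Finset.sum_eq_single (⟨(⟨i, by omega⟩, ⟨j, by omega⟩), h⟩ : Jd d)]
    · simp
    · rintro ⟨⟨⟨a, ha⟩, ⟨b, hb⟩⟩, hab⟩ _ hne
      rw [coeff_monomial]
      split_ifs with h1
      · rw [coeff_monomial, if_neg]
        rintro rfl
        simp only at h1
        subst h1
        exact hne rfl
      · simp
    · intro h1
      exact absurd (Finset.mem_univ _) h1
  · apply Finset.sum_eq_zero
    rintro ⟨⟨⟨a, ha⟩, ⟨b, hb⟩⟩, hab⟩ _
    simp only at hab ⊢
    rw [coeff_monomial]
    split_ifs with h1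
    · rw [coeff_monomial, if_neg]
      omega
    · simp

theorem polyOf_mem (v : Jd d → K) : polyOf d v ∈ rows K (fun j => d + 1 - j) := by
  intro j
  rw [mem_degreeLT, degree_lt_iff_coeff_zero]
  intro i hi
  have hi' : d + 1 - j ≤ i := hi
  rw [coeff_polyOf, dif_neg]
  omega

theorem exists_polyOf {f : K[X][X]} (hf : f ∈ rows K (fun j => d + 1 - j)) :
    ∃ v : Jd d → K, f = polyOf d v := by
  refine ⟨fun p => (f.coeff p.1.2).coeff p.1.1, ?_⟩
  ext j i
  rw [coeff_polyOf]
  split_ifs with h
  · rfl
  · have h1 := hf j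
    rw [mem_degreeLT, degree_lt_iff_coeff_zero] at h1
    exact h1 i (show d + 1 - j ≤ i by omega)

theorem polyOf_eq_zero {v : Jd d → K} (h : polyOf d v = 0) : v = 0 := by
  funext p
  have h1 := coeff_polyOf v p.1.1 p.1.2
  rw [h, dif_pos p.2] at h1
  simpa using h1.symm

theorem coeff_sh (a b : K) (v : Jd d → K) (i j : ℕ) :
    ((sh a b (polyOf d v)).coeff j).coeff i = ∑ p : Jd d,
      (a ^ ((p.1.1 : ℕ) - i) * ((p.1.1 : ℕ).choose i : K)) *
      (b ^ ((p.1.2 : ℕ) - j) * ((p.1.2 : ℕ).choose j : K)) * v p := by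
  rw [polyOf, map_sum, finsetSum_coeff, finsetSum_coeff]
  apply Finset.sum_congr rfl
  intro p _
  have h1 : sh a b (monomial (p.1.2 : ℕ) (monomial (p.1.1 : ℕ) (v p))) =
      taylor (C b) (monomial (p.1.2 : ℕ) (taylor a (monomial (p.1.1 : ℕ) (v p)))) := by
    change taylor (C b) (Polynomial.map _ _) = _
    rw [Polynomial.map_monomial]
    rfl
  rw [h1, taylor_monomial, taylor_monomial, coeff_C_mul, coeff_X_add_C_pow]
  have h2 : (C b ^ ((p.1.2 : ℕ) - j) * (((p.1.2 : ℕ).choose j : ℕ) : K[X])) =
      C (b ^ ((p.1.2 : ℕ) - j) * ((p.1.2 : ℕ).choose j : K)) := by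
    simp
  rw [h2, coeff_mul_C, coeff_C_mul, coeff_X_add_C_pow]
  ring

theorem multGe_iff (P : Fin r → K × K) (v : Jd d → K) :
    (∀ l, MultGe m (P l).1 (P l).2 (polyOf d v)) ↔
      (condMat r d m (fun l => (P l).1) (fun l => (P l).2)).mulVec v = 0 := by
  constructor
  · intro h
    funext q
    rw [Matrix.mulVec, dotProduct]
    by_cases hq : (q.2.1 : ℕ) + q.2.2 < m
    · have h1 := h q.1 q.2.1 q.2.2 hq
      rw [coeff_sh] at h1
      simp only [condMat, if_pos hq]
      exact h1
    · simp only [condMat, if_neg hq, zero_mul, Finset.sum_const_zero, Pi.zero_apply]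
  · intro h l i j hij
    have h1 := congrFun h (l, ⟨i, by omega⟩, ⟨j, by omega⟩)
    rw [Matrix.mulVec, dotProduct] at h1
    simp only [condMat, if_pos hij, Pi.zero_apply] at h1
    rw [coeff_sh]
    exact h1

theorem noCurve_iff (P : Fin r → K × K) : NoCurve K r d m P ↔
    Fintype.card (Jd d) ≤ (condMat r d m (fun l => (P l).1) (fun l => (P l).2)).rank := by
  rw [Matrix.rank]
  set M := condMat r d m (fun l => (P l).1) (fun l => (P l).2)
  have h0 := LinearMap.finrank_range_add_finrank_ker M.mulVecLin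
  rw [Module.finrank_fintype_fun_eq_card] at h0
  have h1 : NoCurve K r d m P ↔ LinearMap.ker M.mulVecLin = ⊥ := by
    rw [LinearMap.ker_eq_bot']
    constructor
    · intro h v hv
      exact polyOf_eq_zero (h _ (polyOf_mem v) ((multGe_iff P v).mpr hv))
    · intro h f hf hf'
      obtain ⟨v, rfl⟩ := exists_polyOf hf
      rw [h v ((multGe_iff P v).mp hf')]
      simp [polyOf]
  rw [h1, ← Submodule.finrank_eq_zero (R := K)]
  omega

end

/-- EC-D4 -/
theorem generic {K : Type} [Field K] [CharZero K] {r d m : ℕ} {P : Fin r → K × K}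
    (h : NoCurve K r d m P) {k : Type} [Field k] [CharZero k] (c : Fin r × Bool → k)
    (hc : AlgebraicIndependent ℚ c) :
    NoCurve k r d m (fun i => (c (i, false) + c (i, true), c (i, false) * c (i, true))) := by
  classical
  -- a nonzero maximal minor over `K`
  obtain ⟨f, g, hfg⟩ := Pool.Agent.Helper7.Shell.exists_minor_le _ _ ((noCurve_iff P).mp h)
  -- the points over the algebraic closure
  have h1 : ∀ l, ∃ c' : AlgebraicClosure K × AlgebraicClosure K,
      c'.1 + c'.2 = algebraMap K _ (P l).1 ∧ c'.1 * c'.2 = algebraMap K _ (P l).2 := by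
    intro l
    obtain ⟨z, hz⟩ := IsAlgClosed.exists_root
      (X ^ 2 - C (algebraMap K (AlgebraicClosure K) (P l).1) * X +
        C (algebraMap K (AlgebraicClosure K) (P l).2)) (by
        have : (X ^ 2 - C (algebraMap K (AlgebraicClosure K) (P l).1) * X +
          C (algebraMap K (AlgebraicClosure K) (P l).2)).degree = 2 := by
          compute_degree!
        rw [this]
        decide)
    refine ⟨(z, algebraMap K _ (P l).1 - z), by ring, ?_⟩
    simp only [IsRoot, eval_add, eval_sub, eval_pow, eval_X, eval_mul, eval_C] at hz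
    linear_combination -hz
  choose c' h2 h3 using h1
  -- the universal matrix
  let U : Matrix (Fin r × Fin m × Fin m) (Jd d) (MvPolynomial (Fin r × Bool) ℚ) :=
    condMat r d m (fun l => MvPolynomial.X (l, false) + MvPolynomial.X (l, true))
      (fun l => MvPolynomial.X (l, false) * MvPolynomial.X (l, true))
  have hU : (U.submatrix f g).det ≠ 0 := by
    intro h0
    have : CharZero (AlgebraicClosure K) :=
      charZero_of_injective_algebraMap (algebraMap K (AlgebraicClosure K)).injective
    let φ : MvPolynomial (Fin r × Bool) ℚ →+* AlgebraicClosure K :=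
      (MvPolynomial.aeval fun e : Fin r × Bool => if e.2 then (c' e.1).2 else (c' e.1).1).toRingHom
    have h4 : U.map φ = (condMat r d m (fun l => (P l).1) (fun l => (P l).2)).map
        (algebraMap K (AlgebraicClosure K)) := by
      rw [condMat_map, condMat_map]
      congr 1
      · funext l
        rw [← h2 l]
        simp [φ]
      · funext l
        rw [← h3 l]
        simp [φ]
    have h5 := congrArg φ h0
    rw [map_zero, RingHom.map_det, RingHom.mapMatrix_apply, ← Matrix.submatrix_map, h4,
      Matrix.submatrix_map, ← RingHom.mapMatrix_apply, ← RingHom.map_det] at h5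
    exact hfg ((map_eq_zero _).mp h5)
  rw [noCurve_iff]
  apply Pool.Agent.Helper7.Shell.le_rank_of_minor _ _ f g
  have h6 : condMat r d m (fun l => c (l, false) + c (l, true))
      (fun l => c (l, false) * c (l, true)) =
      U.map (MvPolynomial.aeval (R := ℚ) c : MvPolynomial (Fin r × Bool) ℚ →ₐ[ℚ] k).toRingHom := by
    rw [condMat_map]
    congr 1
    · funext l
      simp
    · funext l
      simp
  simp only
  rw [h6, Matrix.submatrix_map, ← RingHom.mapMatrix_apply, ← RingHom.map_det]
  intro h7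
  exact hU (hc.eq_zero_of_aeval_eq_zero _ h7)

end Pool.Agent.Helper62.EC
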